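import Mathlib

/-!
# Circuits through prescribed edges in cyclically edge-connected cubic graphs

Statement of a counterexample for `k = 6`.
-/

set_option autoImplicit false

namespace Pool.Agent.W307.HT

open SimpleGraph

variable {V : Type}

/-- the edge cut `δ(U)`: the edges with exactly one end in `U` -/
def cut (G : SimpleGraph V) (U : Set V) : Set (Sym2 V) :=
  {e | ∃ a b, a ∈ U ∧ b ∉ U ∧ G.Adj a b ∧ e = s(a, b)}

/-- a bond: a minimal nonempty edge cut -/
def IsBond (G : SimpleGraph V) (S : Set (Sym2 V)) : Prop :=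
  S.Nonempty ∧ (∃ U, S = cut G U) ∧ ∀ T, T ⊂ S → T.Nonempty → ¬ ∃ U, T = cut G U

/-- cyclically `k`-edge-connected: a connected graph with two vertex-disjoint circuits such that
there is no bond `S` with `|S| < k` such that every component of `G ∖ S` contains a circuit -/
def CyclicallyEdgeConnected (k : ℕ) (G : SimpleGraph V) : Prop :=
  G.Connected ∧
  (∃ (u v : V) (p : G.Walk u u) (q : G.Walk v v), p.IsCycle ∧ q.IsCycle ∧
    ∀ x, x ∈ p.support → x ∉ q.support) ∧
  ∀ S, IsBond G S → S.ncard < k → ¬ ∀ c : (G.deleteEdges S).ConnectedComponent,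
    ∃ (v : V) (p : (G.deleteEdges S).Walk v v), p.IsCycle ∧ v ∈ c.supp

/-- a path system: there is no circuit and no vertex is incident with three edges -/
def PathSystem (S : Set (Sym2 V)) : Prop :=
  (SimpleGraph.fromEdgeSet S).IsAcyclic ∧ ∀ v, {e ∈ S | v ∈ e}.ncard ≤ 2

/-- HW: a cubic graph that is cyclically 6-edge-connected and a set of five edges that induces a path
system and is not contained in a circuit. -/
def HW : Prop := ∃ (G : SimpleGraph (Fin 14)) (S : Finset (Sym2 (Fin 14))),
  (∀ v, (G.neighborSet v).ncard = 3) ∧ CyclicallyEdgeConnected 6 G ∧ (S : Set (Sym2 (Fin 14))) ⊆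
    G.edgeSet ∧ S.card = 5 ∧ PathSystem (S : Set (Sym2 (Fin 14))) ∧
  ∀ (v : Fin 14) (p : G.Walk v v), p.IsCycle → ¬ ∀ e ∈ S, e ∈ p.edges

/-- GEN: for every `k ≥ 6`, every cubic graph that is cyclically `k`-edge-connected has a set of
`k - 1` edges that induces a path system and is not contained in a circuit. -/
def GEN : Prop := ∀ (V : Type) [Fintype V] (G : SimpleGraph V) (k : ℕ), 6 ≤ k →
  (∀ v, (G.neighborSet v).ncard = 3) → CyclicallyEdgeConnected k G →
  ∃ S : Finset (Sym2 V), (S : Set (Sym2 V)) ⊆ G.edgeSet ∧ S.card = k - 1 ∧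
    PathSystem (S : Set (Sym2 V)) ∧
    ∀ (v : V) (p : G.Walk v v), p.IsCycle → ¬ ∀ e ∈ S, e ∈ p.edges

end Pool.Agent.W307.HT
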